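import Pool.Agent.Helper37.LPath.L3

/-!
The Boolean check that an edge list gives a core graph (MP_fc92c5).
-/

namespace Pool.Agent.Helper37.LPath

open Pool.Agent.Helper67.LPath

theorem look2_symm (E : List (ℕ × ℕ × ℕ)) (a b : ℕ) : look2 E a b = look2 E b a := by
  induction E with
  | nil => rfl
  | cons e t ih =>
    obtain ⟨u, v, c⟩ := e
    rw [look2, look2, ih, Bool.or_comm]

/-- every entry has two different ends smaller than `n` -/
def coreB (n : ℕ) : List (ℕ × ℕ × ℕ) → Bool
  | [] => true
  | (u, v, _) :: t =>
    cond (Nat.beq u v) false (cond (Nat.blt u n) (cond (Nat.blt v n) (coreB n t) false) false)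

theorem coreB_sound (n : ℕ) (E : List (ℕ × ℕ × ℕ)) (h : coreB n E = true) :
    Core n (look2 E) := by
  refine ⟨look2_symm E, ?_, ?_⟩
  · intro a
    induction E with
    | nil => rfl
    | cons e t ih =>
      obtain ⟨u, v, c⟩ := e
      rw [coreB] at h
      cases h1 : Nat.beq u v with
      | true => rw [h1] at h; simp at h
      | false =>
        rw [h1, cond_false] at h
        cases h2 : Nat.blt u n with
        | false => rw [h2] at h; simp at h
        | true =>
          rw [h2, cond_true] at h
          cases h3 : Nat.blt v n with
          | false => rw [h3] at h; simp at h
          | true =>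
            rw [h3, cond_true] at h
            rw [look2, ih h]
            have h4 : u ≠ v := Nat.ne_of_beq_eq_false h1
            have h5 : ((Nat.beq u a && Nat.beq v a) || (Nat.beq u a && Nat.beq v a)) = false := by
              rw [Bool.or_self, Bool.and_eq_false_iff]
              by_cases h6 : u = a
              · right
                rw [← h6]
                cases h7 : Nat.beq v u with
                | false => rfl
                | true => exact absurd (Nat.eq_of_beq_eq_true h7).symm h4
              · left
                cases h7 : Nat.beq u a with
                | false => rfl
                | true => exact absurd (Nat.eq_of_beq_eq_true h7) h6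
            rw [h5, cond_false]
  · intro a b
    induction E with
    | nil => intro h1; simp [look2] at h1
    | cons e t ih =>
      obtain ⟨u, v, c⟩ := e
      intro h0
      rw [coreB] at h
      cases h1 : Nat.beq u v with
      | true => rw [h1] at h; simp at h
      | false =>
        rw [h1, cond_false] at h
        cases h2 : Nat.blt u n with
        | false => rw [h2] at h; simp at h
        | true =>
          rw [h2, cond_true] at h
          cases h3 : Nat.blt v n with
          | false => rw [h3] at h; simp at h
          | true =>
            rw [h3, cond_true] at h
            rw [look2] at h0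
            cases h4 : ((Nat.beq u a && Nat.beq v b) || (Nat.beq u b && Nat.beq v a)) with
            | false => rw [h4, cond_false] at h0; exact ih h h0
            | true =>
              have hu : u < n := Nat.lt_of_succ_le (Nat.le_of_ble_eq_true h2)
              have hv : v < n := Nat.lt_of_succ_le (Nat.le_of_ble_eq_true h3)
              rw [Bool.or_eq_true, Bool.and_eq_true, Bool.and_eq_true] at h4
              rcases h4 with ⟨h5, _⟩ | ⟨_, h5⟩
              · rw [← Nat.eq_of_beq_eq_true h5]; exact hu
              · rw [← Nat.eq_of_beq_eq_true h5]; exact hv

end Pool.Agent.Helper37.LPath
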