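import Pool.Agent.Helper37.LPath.CoreB
import Pool.Agent.Helper37.LPath.K6Data

namespace Pool.Agent.Helper37.LPath

open Pool.Agent.Helper67.LPath

theorem k6_core : Core 267 (look2 k6E) := coreB_sound 267 k6E (by decide +kernel)

end Pool.Agent.Helper37.LPath
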