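import Pool.Agent.Helper37.LPath.CoreB

/-! Data (MP_fc92c5, K = 6): a chain of 3 copies of a fragment with 14 vertices and four
half-edges (copy k vertex v is named 16 k + v; the middle copy is mirrored), tips 5, 4, 32, 39,
and six tip paths of weight 293 without common vertex. -/

namespace Pool.Agent.Helper37.LPath

open Pool.Agent.Helper67.LPath

/-- the edges with their weights -/
def s6E : List (ℕ × ℕ × ℕ) :=
  [(0, 4, 24), (0, 13, 1), (1, 4, 3), (1, 8, 1), (1, 10, 15), (2, 5, 9), (2, 6, 7), (2, 9, 1),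
   (3, 5, 3), (3, 11, 1), (3, 13, 15), (4, 6, 9), (5, 7, 24), (6, 12, 1), (7, 10, 1), (8, 9, 15),
   (8, 11, 5), (9, 10, 1), (11, 12, 15), (12, 13, 1), (0, 16, 1), (7, 23, 1), (16, 20, 24), (16, 29, 1),
   (17, 20, 3), (17, 24, 1), (17, 26, 15), (18, 21, 9), (18, 22, 7), (18, 25, 1), (19, 21, 3), (19, 27, 1),
   (19, 29, 15), (20, 22, 9), (21, 23, 24), (22, 28, 1), (23, 26, 1), (24, 25, 15), (24, 27, 5), (25, 26, 1),
   (27, 28, 15), (28, 29, 1), (21, 37, 1), (20, 36, 1), (32, 36, 24), (32, 45, 1), (33, 36, 3), (33, 40, 1),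
   (33, 42, 15), (34, 37, 9), (34, 38, 7), (34, 41, 1), (35, 37, 3), (35, 43, 1), (35, 45, 15), (36, 38, 9),
   (37, 39, 24), (38, 44, 1), (39, 42, 1), (40, 41, 15), (40, 43, 5), (41, 42, 1), (43, 44, 15), (44, 45, 1)]

def s6Tips : List ℕ := [5, 4, 32, 39]

/-- the six paths -/
def s6P : List (List ℕ) :=
  [[4, 1, 10, 9, 8, 11, 12, 13, 3, 5, 7, 23, 21, 19, 29, 28, 27, 24, 25, 26,
   17, 20, 36, 33, 42, 41, 40, 43, 44, 45, 35, 37, 39],
   [5, 7, 10, 1, 8, 9, 2, 6, 4, 0, 16, 20, 22, 18, 25, 24, 17, 26, 23, 21,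
   37, 39, 42, 33, 40, 41, 34, 38, 36, 32],
   [5, 3, 13, 12, 11, 8, 9, 10, 1, 4, 0, 16, 20, 17, 26, 25, 24, 27, 28, 29,
   19, 21, 37, 35, 45, 44, 43, 40, 41, 42, 33, 36, 32],
   [5, 7, 10, 1, 8, 9, 2, 6, 12, 11, 3, 13, 0, 16, 29, 19, 27, 28, 22, 18,
   25, 24, 17, 26, 23, 21, 37, 39, 42, 33, 40, 41, 34, 38, 44, 43, 35, 45, 32],
   [4, 0, 13, 3, 11, 12, 6, 2, 9, 8, 1, 10, 7, 23, 26, 17, 24, 25, 18, 22,
   28, 27, 19, 29, 16, 20, 36, 32, 45, 35, 43, 44, 38, 34, 41, 40, 33, 42, 39],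
   [4, 0, 13, 3, 11, 12, 6, 2, 5, 7, 23, 21, 18, 22, 28, 27, 19, 29, 16, 20,
   36, 32, 45, 35, 43, 44, 38, 34, 37, 39]]

theorem s6_fam : famB (look2 s6E) s6Tips 293 s6P = true := by decide +kernel

theorem s6_core : Core 48 (look2 s6E) := coreB_sound 48 s6E (by decide +kernel)

end Pool.Agent.Helper37.LPath
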