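import Pool.Agent.Helper67.LPath.Defs

/-!
Piece L3 (MP_fc92c5): a Boolean checker for a family of explicit tip paths of a weighted core
graph, and its soundness.
-/

namespace Pool.Agent.Helper37.LPath

open Pool.Agent.Helper67.LPath

/-- weight of the pair `a, b` in an edge list -/
def look2 : List (ℕ × ℕ × ℕ) → ℕ → ℕ → ℕ
  | [], _, _ => 0
  | (u, v, c) :: t, a, b =>
    cond ((Nat.beq u a && Nat.beq v b) || (Nat.beq u b && Nat.beq v a)) c (look2 t a b)

/-- bit test -/
def tb (m a : ℕ) : Bool := Nat.beq (Nat.land (Nat.shiftRight m a) 1) 1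

theorem tb_eq (m a : ℕ) : tb m a = Nat.testBit m a := by
  unfold tb
  rw [Bool.eq_iff_iff, Nat.beq_eq]
  have h1 : Nat.land (Nat.shiftRight m a) 1 = (m >>> a) &&& 1 := rfl
  rw [h1, Nat.and_one_is_mod, Nat.testBit_eq_decide_div_mod_eq, Nat.shiftRight_eq_div_pow]
  simp

theorem tb_shift (a v : ℕ) : Nat.testBit (1 <<< a) v = decide (a = v) := by
  rw [Nat.one_shiftLeft, Nat.testBit_two_pow]

/-- mask of a list -/
def mask : List ℕ → ℕ
  | [] => 0
  | a :: t => Nat.lor (mask t) (Nat.shiftLeft 1 a)

theorem mem_iff_mask (l : List ℕ) (v : ℕ) : v ∈ l ↔ Nat.testBit (mask l) v = true := by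
  induction l with
  | nil => simp [mask]
  | cons a t ih =>
    have h1 : mask (a :: t) = mask t ||| (1 <<< a) := rfl
    rw [h1, Nat.testBit_or, Bool.or_eq_true, ← ih, List.mem_cons, tb_shift]
    constructor
    · rintro (rfl | h)
      · right; simp
      · left; exact h
    · rintro (h | h)
      · right; exact h
      · left; exact (of_decide_eq_true h).symm

/-- distinctness with an accumulator of the vertices already seen -/
def nodupB : List ℕ → ℕ → Bool
  | [], _ => true
  | a :: t, m => cond (tb m a) false (nodupB t (Nat.lor m (Nat.shiftLeft 1 a)))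

theorem nodupB_sound (l : List ℕ) (m : ℕ) (h : nodupB l m = true) :
    l.Nodup ∧ ∀ v ∈ l, Nat.testBit m v = false := by
  induction l generalizing m with
  | nil => simp
  | cons a t ih =>
    rw [nodupB, tb_eq] at h
    cases hb : Nat.testBit m a with
    | true => rw [hb] at h; simp at h
    | false =>
      rw [hb, cond_false] at h
      obtain ⟨h1, h2⟩ := ih _ h
      have h3 : ∀ v ∈ t, Nat.testBit m v = false ∧ a ≠ v := by
        intro v hv
        have h4 := h2 v hv
        have h5 : Nat.lor m (Nat.shiftLeft 1 a) = m ||| (1 <<< a) := rfl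
        rw [h5, Nat.testBit_or, Bool.or_eq_false_iff, tb_shift] at h4
        refine ⟨h4.1, ?_⟩
        simpa using h4.2
      refine ⟨List.nodup_cons.2 ⟨fun ha => (h3 a ha).2 rfl, h1⟩, ?_⟩
      intro v hv
      rcases List.mem_cons.1 hv with rfl | hv
      · exact hb
      · exact (h3 v hv).1

/-- all consecutive weights are positive and their sum is `s` -/
def chainB (W : ℕ → ℕ → ℕ) : List ℕ → ℕ → Bool
  | [], s => Nat.beq s 0
  | a :: t, s => match t with
    | [] => Nat.beq s 0
    | b :: _ => (fun w => cond (Nat.beq w 0) false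
        (cond (Nat.ble w s) (chainB W t (Nat.sub s w)) false)) (W a b)

theorem chainB_sound (W : ℕ → ℕ → ℕ) (l : List ℕ) (s : ℕ) (h : chainB W l s = true) :
    l.IsChain (fun a b => 0 < W a b) ∧ wt W l = s := by
  induction l generalizing s with
  | nil =>
    rw [chainB, Nat.beq_eq] at h
    exact ⟨List.IsChain.nil, by rw [wt, h]⟩
  | cons a t ih =>
    cases t with
    | nil =>
      rw [chainB] at h
      rw [Nat.beq_eq] at h
      exact ⟨List.IsChain.singleton _, by rw [wt, h]⟩
    | cons b u =>
      rw [chainB] at h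
      simp only at h
      cases h1 : Nat.beq (W a b) 0 with
      | true => rw [h1] at h; simp at h
      | false =>
        rw [h1, cond_false] at h
        cases h2 : Nat.ble (W a b) s with
        | false => rw [h2] at h; simp at h
        | true =>
          rw [h2, cond_true] at h
          obtain ⟨h3, h4⟩ := ih _ h
          have h5 : W a b ≠ 0 := by
            intro h6
            rw [h6] at h1
            exact absurd h1 (by decide)
          have h6 : W a b ≤ s := Nat.le_of_ble_eq_true h2
          refine ⟨List.IsChain.cons_cons (Nat.pos_of_ne_zero h5) h3, ?_⟩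
          rw [wt, h4]
          have h7 : Nat.sub s (W a b) = s - W a b := rfl
          rw [h7]
          omega

/-- membership in a list of numbers -/
def memB : List ℕ → ℕ → Bool
  | [], _ => false
  | a :: t, x => cond (Nat.beq a x) true (memB t x)

theorem memB_sound (l : List ℕ) (x : ℕ) (h : memB l x = true) : x ∈ l := by
  induction l with
  | nil => simp [memB] at h
  | cons a t ih =>
    rw [memB] at h
    cases h1 : Nat.beq a x with
    | true =>
      rw [Nat.beq_eq] at h1
      rw [h1]; exact List.mem_cons_self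
    | false => rw [h1, cond_false] at h; exact List.mem_cons_of_mem _ (ih h)

/-- last element with a default -/
def lastD : List ℕ → ℕ → ℕ
  | [], d => d
  | a :: t, _ => lastD t a

theorem lastD_spec (l : List ℕ) (d : ℕ) (h : l ≠ []) : l.getLast? = some (lastD l d) := by
  induction l generalizing d with
  | nil => exact absurd rfl h
  | cons a t ih =>
    cases t with
    | nil => rfl
    | cons b u =>
      rw [lastD, ← ih a (by simp)]
      simp [List.getLast?_cons_cons]

/-- the check of one path -/
def pathB (W : ℕ → ℕ → ℕ) (tips : List ℕ) (L : ℕ) (l : List ℕ) : Bool :=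
  match l with
  | [] => false
  | a :: t => (memB tips a && memB tips (lastD t a) && !(Nat.beq a (lastD t a))) &&
      (nodupB (a :: t) 0 && chainB W (a :: t) L)

theorem pathB_sound (W : ℕ → ℕ → ℕ) (tips : List ℕ) (L : ℕ) (l : List ℕ)
    (h : pathB W tips L l = true) : TipPath W tips l ∧ wt W l = L := by
  cases l with
  | nil => simp [pathB] at h
  | cons a t =>
    unfold pathB at h
    simp only [Bool.and_eq_true, Bool.not_eq_true'] at h
    obtain ⟨⟨⟨h1, h2⟩, h3⟩, h4, h5⟩ := h
    have h6 := nodupB_sound _ _ h4
    have h7 := chainB_sound W _ _ h5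
    refine ⟨⟨⟨h6.1, h7.1⟩, a, memB_sound _ _ h1, lastD t a, memB_sound _ _ h2, ?_, rfl, ?_⟩, h7.2⟩
    · intro h8
      rw [← h8] at h3
      simp at h3
    · exact lastD_spec (a :: t) 0 (by simp)

/-- the check of all paths -/
def pathsB (W : ℕ → ℕ → ℕ) (tips : List ℕ) (L : ℕ) : List (List ℕ) → Bool
  | [] => true
  | l :: t => cond (pathB W tips L l) (pathsB W tips L t) false

theorem pathsB_sound (W : ℕ → ℕ → ℕ) (tips : List ℕ) (L : ℕ) (PL : List (List ℕ))
    (h : pathsB W tips L PL = true) : ∀ l ∈ PL, TipPath W tips l ∧ wt W l = L := by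
  induction PL with
  | nil => simp
  | cons a t ih =>
    rw [pathsB] at h
    cases h1 : pathB W tips L a with
    | false => rw [h1] at h; simp at h
    | true =>
      rw [h1, cond_true] at h
      intro l hl
      rcases List.mem_cons.1 hl with rfl | hl
      · exact pathB_sound W tips L _ h1
      · exact ih h l hl

/-- intersection of the masks, starting from `m` -/
def interM : List (List ℕ) → ℕ → ℕ
  | [], m => m
  | l :: t, m => interM t (Nat.land m (mask l))

theorem interM_spec (PL : List (List ℕ)) (m v : ℕ) :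
    Nat.testBit (interM PL m) v = true ↔ Nat.testBit m v = true ∧ ∀ l ∈ PL, v ∈ l := by
  induction PL generalizing m with
  | nil => simp [interM]
  | cons a t ih =>
    have h1 : Nat.land m (mask a) = m &&& mask a := rfl
    rw [interM, ih, h1, Nat.testBit_and, Bool.and_eq_true, ← mem_iff_mask]
    constructor
    · rintro ⟨⟨h2, h3⟩, h4⟩
      refine ⟨h2, fun l hl => ?_⟩
      rcases List.mem_cons.1 hl with rfl | hl
      · exact h3
      · exact h4 l hl
    · rintro ⟨h2, h3⟩
      exact ⟨⟨h2, h3 a List.mem_cons_self⟩, fun l hl => h3 l (List.mem_cons_of_mem _ hl)⟩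

/-- no common vertex -/
def noB : List (List ℕ) → Bool
  | [] => false
  | l :: t => Nat.beq (interM t (mask l)) 0

theorem noB_sound (PL : List (List ℕ)) (h : noB PL = true) (v : ℕ) : ∃ l ∈ PL, v ∉ l := by
  cases PL with
  | nil => simp [noB] at h
  | cons a t =>
    by_contra hc
    push Not at hc
    rw [noB, Nat.beq_eq] at h
    have h1 : Nat.testBit (interM t (mask a)) v = true := by
      rw [interM_spec]
      exact ⟨(mem_iff_mask a v).1 (hc a List.mem_cons_self),
        fun l hl => hc l (List.mem_cons_of_mem _ hl)⟩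
    rw [h] at h1
    simp at h1

/-- one path meets all of the list -/
def meet1 (m : ℕ) : List (List ℕ) → Bool
  | [] => true
  | l :: t => cond (Nat.beq (Nat.land m (mask l)) 0) false (meet1 m t)

/-- all pairs meet -/
def meetB (QL : List (List ℕ)) : List (List ℕ) → Bool
  | [] => true
  | l :: t => cond (meet1 (mask l) QL) (meetB QL t) false

theorem meet1_sound (a : List ℕ) (QL : List (List ℕ)) (h : meet1 (mask a) QL = true) :
    ∀ l ∈ QL, ∃ v, v ∈ a ∧ v ∈ l := by
  induction QL with
  | nil => simp
  | cons b t ih =>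
    rw [meet1] at h
    cases h1 : Nat.beq (Nat.land (mask a) (mask b)) 0 with
    | true => rw [h1] at h; simp at h
    | false =>
      rw [h1, cond_false] at h
      intro l hl
      rcases List.mem_cons.1 hl with rfl | hl
      · have h2 : mask a &&& mask l ≠ 0 := by
          intro h3
          have h4 : Nat.land (mask a) (mask l) = 0 := h3
          rw [h4] at h1
          exact absurd h1 (by decide)
        obtain ⟨v, hv⟩ := Nat.exists_testBit_of_ne_zero h2
        rw [Nat.testBit_and, Bool.and_eq_true] at hv
        exact ⟨v, (mem_iff_mask a v).2 hv.1, (mem_iff_mask l v).2 hv.2⟩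
      · exact ih h l hl

theorem meetB_sound (QL PL : List (List ℕ)) (h : meetB QL PL = true) :
    ∀ a ∈ PL, ∀ l ∈ QL, ∃ v, v ∈ a ∧ v ∈ l := by
  induction PL with
  | nil => simp
  | cons b t ih =>
    rw [meetB] at h
    cases h1 : meet1 (mask b) QL with
    | false => rw [h1] at h; simp at h
    | true =>
      rw [h1, cond_true] at h
      intro a ha
      rcases List.mem_cons.1 ha with rfl | ha
      · exact meet1_sound _ QL h1
      · exact ih h a ha

/-- the complete check of the family -/
def famB (W : ℕ → ℕ → ℕ) (tips : List ℕ) (L : ℕ) (PL : List (List ℕ)) : Bool :=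
  pathsB W tips L PL && (meetB PL PL && noB PL)

theorem famB_sound (W : ℕ → ℕ → ℕ) (tips : List ℕ) (L : ℕ) (PL : List (List ℕ))
    (h : famB W tips L PL = true) :
    (∀ i : Fin PL.length, TipPath W tips (PL.get i) ∧ wt W (PL.get i) = L) ∧
    (∀ i j : Fin PL.length, ∃ v, v ∈ PL.get i ∧ v ∈ PL.get j) ∧
    (∀ v, ∃ i : Fin PL.length, v ∉ PL.get i) := by
  unfold famB at h
  simp only [Bool.and_eq_true] at h
  obtain ⟨h1, h2, h3⟩ := h
  refine ⟨fun i => pathsB_sound W tips L PL h1 _ (List.get_mem PL i),
    fun i j => meetB_sound PL PL h2 _ (List.get_mem PL i) _ (List.get_mem PL j), fun v => ?_⟩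
  obtain ⟨l, hl, hv⟩ := noB_sound PL h3 v
  obtain ⟨i, hi⟩ := List.get_of_mem hl
  exact ⟨i, by rw [hi]; exact hv⟩

end Pool.Agent.Helper37.LPath
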